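import Pool.Agent.H45.RC.Work

/-!
# Part C: the potential, and the consensus protocol
-/

namespace RC.Cons

open Function

open scoped ENNReal

variable {n T1 T2 K : ℕ} {δ1 δ2 : ℝ}

section

variable (A : Stage1 n T1 K δ1) (B : Stage2 n T2 K δ2)

/-- a certificate of the first stage -/
noncomputable def f1 (v : Bool) : List (Fin n × Bool) → ℝ := (A.cert v).choose

/-- a certificate of the second stage -/
noncomputable def f2 (v : Bool) : List (Fin n × Bool) → ℝ := (B.cert v).choose

theorem f1_cert (v : Bool) :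
    A.P.IsCert (f1 A v) δ1 (fun h => ∀ i b, A.P.Outs h i (some b) → b = v) :=
  (A.cert v).choose_spec

theorem f2_cert (v : Bool) :
    B.P.IsCert (f2 B v) δ2 (fun h => (parts h).card ≤ K → ∀ i b, B.P.Outs h i b → b = v) :=
  (B.cert v).choose_spec

/-- the certificate of the coin of round `r` (for the value `v*_r`) -/
noncomputable def fv (g : GC A.P B.P) (r : ℕ) : ℝ :=
  match g.vs r with
  | some (_, v) => f1 A v (g.H1 r) * f2 B v (g.H2 r)
  | none => 0

/-- the potential -/
noncomputable def pot (g : GC A.P B.P) : ℝ :=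
  match g.R with
  | 0 => 1 / (δ1 * δ2)
  | r + 1 => ((r : ℝ) + 1) + 1 / (δ1 * δ2) * (1 - fv A B g r)

theorem fv_of_vs {g : GC A.P B.P} {r : ℕ} {z : Fin n} {v : Bool} (h : g.vs r = some (z, v)) :
    fv A B g r = f1 A v (g.H1 r) * f2 B v (g.H2 r) := by
  simp [fv, h]

theorem fv_nonneg (g : GC A.P B.P) (r : ℕ) : 0 ≤ fv A B g r := by
  unfold fv
  split
  · exact mul_nonneg ((f1_cert A _).nonneg _) ((f2_cert B _).nonneg _)
  · exact le_rfl

theorem fv_le_one (g : GC A.P B.P) (r : ℕ) : fv A B g r ≤ 1 := by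
  unfold fv
  split
  · exact mul_le_one₀ ((f1_cert A _).le_one _) ((f2_cert B _).nonneg _) ((f2_cert B _).le_one _)
  · exact zero_le_one

theorem pot_zero {g : GC A.P B.P} (h : g.R = 0) : pot A B g = 1 / (δ1 * δ2) := by
  simp [pot, h]

theorem pot_succ {g : GC A.P B.P} {r : ℕ} (h : g.R = r + 1) :
    pot A B g = ((r : ℝ) + 1) + 1 / (δ1 * δ2) * (1 - fv A B g r) := by
  simp [pot, h]

theorem le_pot (hδ1 : 0 < δ1) (hδ2 : 0 < δ2) (g : GC A.P B.P) : (g.R : ℝ) ≤ pot A B g := by
  have hc : 0 < 1 / (δ1 * δ2) := by positivity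
  rcases Nat.eq_zero_or_eq_succ_pred g.R with h | h
  · rw [pot_zero A B h, h]
    simpa using hc.le
  · rw [pot_succ A B h, h]
    have := fv_le_one A B g (g.R - 1)
    have h2 : 0 ≤ 1 / (δ1 * δ2) * (1 - fv A B g (g.R - 1)) :=
      mul_nonneg hc.le (by linarith)
    simp only [Nat.succ_eq_add_one, Nat.pred_eq_sub_one] at h ⊢
    push_cast
    linarith

theorem step_s1 {inp : Fin n → Bool} {g : GC A.P B.P} (hg : Inv inp g) {i : Fin n} {r : ℕ}
    {s : A.P.S} (hs : g.st i = .s1 r s) (coin : Bool) :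
    (gstep g i coin).H1 = update g.H1 r (g.H1 r ++ [(i, coin)]) ∧
      (gstep g i coin).H2 = g.H2 ∧ (gstep g i coin).R = g.R := by
  rcases gstep_cases' hg i coin with h | h | h | h
  · exact absurd hs (h.2.2.2.1 r s)
  · obtain ⟨r', s', hs', -, h1, h2, h3⟩ := h
    rw [hs] at hs'
    cases hs'
    exact ⟨h1, h2, h3⟩
  · obtain ⟨r', s', hs', -⟩ := h
    rw [hs] at hs'
    cases hs'
  · exact absurd hs (h.2.2.2.2.2.1 r s)

theorem step_s2 {inp : Fin n → Bool} {g : GC A.P B.P} (hg : Inv inp g) {i : Fin n} {r : ℕ}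
    {s : B.P.S} (hs : g.st i = .s2 r s) (coin : Bool) :
    (gstep g i coin).H2 = update g.H2 r (g.H2 r ++ [(i, coin)]) ∧
      (gstep g i coin).H1 = g.H1 ∧ (gstep g i coin).R = g.R := by
  rcases gstep_cases' hg i coin with h | h | h | h
  · exact absurd hs (h.2.2.2.2 r s)
  · obtain ⟨r', s', hs', -⟩ := h
    rw [hs] at hs'
    cases hs'
  · obtain ⟨r', s', hs', -, -, h1, h2, h3⟩ := h
    rw [hs] at hs'
    cases hs'
    exact ⟨h1, h2, h3⟩
  · exact absurd hs (h.2.2.2.2.2.2.1 r s)

/-- a wrong output of a coin kills its certificate -/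
theorem fv_eq_zero {inp : Fin n → Bool} {g : GC A.P B.P} (hg : Inv inp g) {r : ℕ} {z : Fin n}
    {v : Bool} (hv : g.vs r = some (z, v)) {q : Fin n} (hq : COut g r q (!v)) :
    fv A B g r = 0 := by
  rw [fv_of_vs A B hv]
  by_contra hne
  have h1 : 0 < f1 A v (g.H1 r) :=
    lt_of_le_of_ne ((f1_cert A v).nonneg _) (Ne.symm (left_ne_zero_of_mul hne))
  have h2 : 0 < f2 B v (g.H2 r) :=
    lt_of_le_of_ne ((f2_cert B v).nonneg _) (Ne.symm (right_ne_zero_of_mul hne))
  have g1 := (f1_cert A v).good _ h1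
  have g2 := (f2_cert B v).good _ h2
  rcases hq with hq | ⟨-, hq⟩
  · have := g1 q (!v) hq
    cases v <;> simp at this
  · have hcard : (parts (g.H2 r)).card ≤ K :=
      A.pass (g.H1 r) _ (fun i hi => hg.parts2 i r hi)
    have := g2 hcard q (!v) hq
    cases v <;> simp at this

/-- the potential does not increase when the certificate of the last coin does not decrease -/
theorem pot_det {inp : Fin n → Bool} {g : GC A.P B.P} (hδ1 : 0 < δ1) (hδ2 : 0 < δ2)
    (hg : Inv inp g) (i : Fin n) (hg' : ∀ coin, Inv inp (gstep g i coin)) (hfl : ¬ (proto A.P B.P).IsFlip (conf g) i) (coin : Bool) :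
    pot A B (gstep g i coin) ≤ pot A B g := by
  have hc : 0 < 1 / (δ1 * δ2) := by positivity
  rw [isFlip_iff' hg] at hfl
  push Not at hfl
  obtain ⟨hf1, hf2⟩ := hfl
  -- the certificate does not decrease when `R` stays
  have key : (gstep g i coin).R = g.R →
      (∀ r, g.R = r + 1 → fv A B g r ≤ fv A B (gstep g i coin) r) →
      pot A B (gstep g i coin) ≤ pot A B g := by
    intro hR hf
    rcases Nat.eq_zero_or_eq_succ_pred g.R with h | h
    · rw [pot_zero A B h, pot_zero A B (hR.trans h)]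
    · rw [pot_succ A B h, pot_succ A B (hR.trans h)]
      have := mul_le_mul_of_nonneg_left (hf _ h) hc.le
      linarith
  rcases gstep_cases' hg i coin with h | h | h | h
  · obtain ⟨h1, h2, hR, -⟩ := h
    refine key hR fun r hr => ?_
    obtain ⟨z, v, hv⟩ := hg.vs_of_lt' (r := r) (by omega)
    rw [fv_of_vs A B hv, fv_of_vs A B (vs_gstep' g i coin hv), h1, h2]
  · obtain ⟨r', s, hs, -, h1, h2, hR⟩ := h
    refine key hR fun r hr => ?_
    obtain ⟨z, v, hv⟩ := hg.vs_of_lt' (r := r) (by omega)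
    rw [fv_of_vs A B hv, fv_of_vs A B (vs_gstep' g i coin hv), h1, h2]
    by_cases hrr : r = r'
    · subst hrr
      rw [update_self]
      exact mul_le_mul_of_nonneg_right ((f1_cert A v).det _ i coin (hf1 r s hs))
        ((f2_cert B v).nonneg _)
    · rw [update_of_ne hrr]
  · obtain ⟨r', s, hs, -, -, h2, h1, hR⟩ := h
    refine key hR fun r hr => ?_
    obtain ⟨z, v, hv⟩ := hg.vs_of_lt' (r := r) (by omega)
    rw [fv_of_vs A B hv, fv_of_vs A B (vs_gstep' g i coin hv), h1, h2]
    by_cases hrr : r = r'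
    · subst hrr
      rw [update_self]
      exact mul_le_mul_of_nonneg_left ((f2_cert B v).det _ i coin (hf2 r s hs))
        ((f1_cert A v).nonneg _)
    · rw [update_of_ne hrr]
  · obtain ⟨h1, h2, hR, hH1, hH2, -, -, hout⟩ := h
    -- a coin is started
    have hnew : pot A B (gstep g i coin) ≤ (g.R : ℝ) + 1 / (δ1 * δ2) := by
      rw [pot_succ A B hR]
      obtain ⟨z, v, hv⟩ := (hg' coin).vs_of_lt' (r := g.R) (by omega)
      rw [fv_of_vs A B hv, h1, h2, hH1, hH2]
      have e1 := (f1_cert A v).init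
      have e2 := (f2_cert B v).init
      have e3 : δ1 * δ2 ≤ f1 A v [] * f2 B v [] := mul_le_mul e1 e2 hδ2.le (hδ1.le.trans e1)
      have e4 : 1 / (δ1 * δ2) * (δ1 * δ2) = 1 := by
        field_simp
      have e5 := mul_le_mul_of_nonneg_left e3 hc.le
      rw [mul_sub, mul_one]
      linarith
    refine hnew.trans ?_
    rcases Nat.eq_zero_or_eq_succ_pred g.R with h | h
    · rw [pot_zero A B h, h]
      simp
    · rw [pot_succ A B h]
      obtain ⟨z, v, q, hv, hq⟩ := hout _ h
      rw [fv_eq_zero A B hg hv hq, sub_zero, mul_one]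
      have : (g.R : ℝ) = ((g.R - 1 : ℕ) : ℝ) + 1 := by
        rw [h]; push_cast; rfl
      simp only [Nat.pred_eq_sub_one]
      linarith

/-- the potential is a supermartingale when a process flips -/
theorem pot_flip {inp : Fin n → Bool} {g : GC A.P B.P} (hδ1 : 0 < δ1) (hδ2 : 0 < δ2)
    (hg : Inv inp g) (i : Fin n) (hfl : (proto A.P B.P).IsFlip (conf g) i) :
    (pot A B (gstep g i false) + pot A B (gstep g i true)) / 2 ≤ pot A B g := by
  have hc : 0 < 1 / (δ1 * δ2) := by positivity
  rw [isFlip_iff' hg] at hfl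
  have key : (gstep g i false).R = g.R → (gstep g i true).R = g.R →
      (∀ r, g.R = r + 1 →
        fv A B g r ≤ (fv A B (gstep g i false) r + fv A B (gstep g i true) r) / 2) →
      (pot A B (gstep g i false) + pot A B (gstep g i true)) / 2 ≤ pot A B g := by
    intro hR hR' hf
    rcases Nat.eq_zero_or_eq_succ_pred g.R with h | h
    · rw [pot_zero A B h, pot_zero A B (hR.trans h), pot_zero A B (hR'.trans h)]
      linarith
    · rw [pot_succ A B h, pot_succ A B (hR.trans h), pot_succ A B (hR'.trans h)]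
      have := mul_le_mul_of_nonneg_left (hf _ h) hc.le
      linarith
  rcases hfl with ⟨r', s, hs, hfl⟩ | ⟨r', s, hs, hfl⟩
  · obtain ⟨h1, h2, hR⟩ := step_s1 A B hg hs false
    obtain ⟨h1', h2', hR'⟩ := step_s1 A B hg hs true
    refine key hR hR' fun r hr => ?_
    obtain ⟨z, v, hv⟩ := hg.vs_of_lt' (r := r) (by omega)
    rw [fv_of_vs A B hv, fv_of_vs A B (vs_gstep' g i false hv),
      fv_of_vs A B (vs_gstep' g i true hv), h1, h2, h1', h2']
    by_cases hrr : r = r'
    · subst hrr
      rw [update_self, update_self]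
      have := mul_le_mul_of_nonneg_right ((f1_cert A v).flip _ i hfl)
        ((f2_cert B v).nonneg (g.H2 r))
      linarith
    · rw [update_of_ne hrr, update_of_ne hrr]
      linarith
  · obtain ⟨h2, h1, hR⟩ := step_s2 A B hg hs false
    obtain ⟨h2', h1', hR'⟩ := step_s2 A B hg hs true
    refine key hR hR' fun r hr => ?_
    obtain ⟨z, v, hv⟩ := hg.vs_of_lt' (r := r) (by omega)
    rw [fv_of_vs A B hv, fv_of_vs A B (vs_gstep' g i false hv),
      fv_of_vs A B (vs_gstep' g i true hv), h1, h2, h1', h2']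
    by_cases hrr : r = r'
    · subst hrr
      rw [update_self, update_self]
      have := mul_le_mul_of_nonneg_left ((f2_cert B v).flip _ i hfl)
        ((f1_cert A v).nonneg (g.H1 r))
      linarith
    · rw [update_of_ne hrr, update_of_ne hrr]
      linarith

/-- the potential of a history -/
noncomputable def bigG (inp : Fin n → Bool) (h : List (Event n)) : ℝ≥0∞ :=
  ENNReal.ofReal ((pot A B (ghost A.P B.P inp h) + 2) * (2 * n + 2 + T1 + T2))

end

/-- Part C, from the invariants. -/
theorem exists_potential_of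
    (hstep : ∀ (A : Sub n (Option Bool)) (B : Sub n Bool) (inp : Fin n → Bool) (g : GC A B),
      Inv inp g → ∀ i coin, Inv inp (gstep g i coin))
    (hinv : ∀ (A : Sub n (Option Bool)) (B : Sub n Bool) (inp : Fin n → Bool)
      (h : List (Event n)), Inv inp (ghost A B inp h))
    (hδ1 : 0 < δ1) (hδ2 : 0 < δ2)
    (A : Stage1 n T1 K δ1) (B : Stage2 n T2 K δ2) :
    ∃ P : Protocol n,
      (∀ inp h i j b b', P.Decides (P.cfgOf inp h) i b → P.Decides (P.cfgOf inp h) j b' → b = b') ∧
      (∀ inp h i b, P.Decides (P.cfgOf inp h) i b → ∃ j, inp j = b) ∧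
      ∃ G : (Fin n → Bool) → List (Event n) → ℝ≥0∞,
        (∀ inp h i, P.IsFlip (P.cfgOf inp h) i →
          (G inp (h ++ [(i, some false)]) + G inp (h ++ [(i, some true)])) / 2 ≤ G inp h) ∧
        (∀ inp h i, ¬ P.IsFlip (P.cfgOf inp h) i → G inp (h ++ [(i, none)]) ≤ G inp h) ∧
        (∀ inp h i, (P.work inp h i : ℝ≥0∞) ≤ G inp h) ∧
        (∀ inp, G inp [] ≤ ENNReal.ofReal ((1 / (δ1 * δ2) + 3) * (2 * n + 2 + T1 + T2))) := by
  have hM : (0 : ℝ) ≤ 2 * n + 2 + T1 + T2 := by positivity
  have hpos : ∀ g : GC A.P B.P, 0 ≤ (pot A B g + 2) * (2 * n + 2 + T1 + T2) := fun g =>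
    mul_nonneg (by have := le_pot A B hδ1 hδ2 g; have h2 : (0 : ℝ) ≤ g.R := by positivity
                   linarith) hM
  refine ⟨proto A.P B.P, fun inp h i j b b' => agreement' (hinv _ _) inp h i j b b',
    fun inp h i b => validity' (hinv _ _) inp h i b, bigG A B, ?_, ?_, ?_, ?_⟩
  · intro inp h i hf
    rw [← conf_ghost' (hinv _ _)] at hf
    have key := pot_flip A B hδ1 hδ2 (hinv _ _ inp h) i hf
    unfold bigG
    rw [ghost_snoc, ghost_snoc]
    simp only [Option.getD_some]
    rw [← ENNReal.ofReal_add (hpos _) (hpos _)]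
    have h2 : (2 : ℝ≥0∞) = ENNReal.ofReal 2 := by simp
    rw [h2, ← ENNReal.ofReal_div_of_pos (by norm_num)]
    apply ENNReal.ofReal_le_ofReal
    have := mul_le_mul_of_nonneg_right key hM
    nlinarith
  · intro inp h i hf
    rw [← conf_ghost' (hinv _ _)] at hf
    have key := pot_det A B hδ1 hδ2 (hinv _ _ inp h) i
      (fun coin => hstep _ _ inp _ (hinv _ _ inp h) i coin) hf false
    unfold bigG
    rw [ghost_snoc]
    simp only [Option.getD_none]
    apply ENNReal.ofReal_le_ofReal
    exact mul_le_mul_of_nonneg_right (by linarith) hM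
  · intro inp h i
    rw [work_ghost' (hinv _ _)]
    have h1 := work_le (hinv _ _) A.ranked B.ranked inp h i
    unfold bigG
    rw [← ENNReal.ofReal_natCast]
    apply ENNReal.ofReal_le_ofReal
    have h2 : (((ghost A.P B.P inp h).work i : ℕ) : ℝ) ≤
        (((ghost A.P B.P inp h).R : ℝ) + 2) * (2 * n + 2 + T1 + T2) := by
      exact_mod_cast h1
    refine h2.trans (mul_le_mul_of_nonneg_right ?_ hM)
    have := le_pot A B hδ1 hδ2 (ghost A.P B.P inp h)
    linarith
  · intro inp
    unfold bigG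
    apply ENNReal.ofReal_le_ofReal
    have : pot A B (ghost A.P B.P inp []) = 1 / (δ1 * δ2) := by
      rw [ghost_nil]
      exact pot_zero A B rfl
    rw [this]
    exact mul_le_mul_of_nonneg_right (by linarith) hM

end RC.Cons
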