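import Pool.Agent.H27.RC.Defs

/-!
# Part C: the ghost configuration describes the real configuration
-/

namespace RC

open Function

section general

variable {n : ℕ} (P : Protocol n)

theorem Protocol.step_read (c : Config P) (i : Fin n) (b : Bool) {r : P.Reg} {next : P.Val → P.St}
    (h : P.act i (c.st i) = .read r next) :
    P.step c i b = { c with st := Function.update c.st i (next (c.mem r)) } := by
  unfold Protocol.step
  rw [h]

open Classical in
theorem Protocol.step_write (c : Config P) (i : Fin n) (b : Bool) {r : P.Reg}
    {own : P.owner r = i} {v : P.Val} {next : P.St}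
    (h : P.act i (c.st i) = .write r own v next) :
    P.step c i b = { st := Function.update c.st i next, mem := Function.update c.mem r v } := by
  unfold Protocol.step
  rw [h]

theorem Protocol.step_flip (c : Config P) (i : Fin n) (b : Bool) {next : Bool → P.St}
    (h : P.act i (c.st i) = .flip next) :
    P.step c i b = { c with st := Function.update c.st i (next b) } := by
  unfold Protocol.step
  rw [h]

theorem Protocol.step_decide (c : Config P) (i : Fin n) (b : Bool) {x : Bool}
    (h : P.act i (c.st i) = .decide x) : P.step c i b = c := by
  unfold Protocol.step
  rw [h]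

end general

section sub

variable {n : ℕ} {O : Type} (P : Sub n O)

theorem Sub.step_read (c : SCfg P) (i : Fin n) (b : Bool) {j : Fin n} {next : P.V → P.S}
    (h : P.act i (c.st i) = .read j next) :
    P.step c i b = { c with st := Function.update c.st i (next (c.mem j)) } := by
  unfold Sub.step
  rw [h]

theorem Sub.step_write (c : SCfg P) (i : Fin n) (b : Bool) {v : P.V} {next : P.S}
    (h : P.act i (c.st i) = .write v next) :
    P.step c i b = { st := Function.update c.st i next, mem := Function.update c.mem i v } := by
  unfold Sub.step
  rw [h]

theorem Sub.step_flip (c : SCfg P) (i : Fin n) (b : Bool) {next : Bool → P.S}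
    (h : P.act i (c.st i) = .flip next) :
    P.step c i b = { c with st := Function.update c.st i (next b) } := by
  unfold Sub.step
  rw [h]

theorem Sub.step_out (c : SCfg P) (i : Fin n) (b : Bool) {o : O}
    (h : P.act i (c.st i) = .out o) : P.step c i b = c := by
  unfold Sub.step
  rw [h]

end sub

namespace Cons

variable {n : ℕ} {A : Sub n (Option Bool)} {B : Sub n Bool}

theorem conf_eq {c c' : Config (proto A B)} (h1 : c.st = c'.st) (h2 : c.mem = c'.mem) : c = c' := by
  cases c; cases c'; simp_all

theorem upd_mem (m : ℕ × Kind × Fin n → CVal A.V B.V) (q0 : ℕ × Kind × Fin n) (v : CVal A.V B.V)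
    (q : ℕ × Kind × Fin n) :
    @Function.update (ℕ × Kind × Fin n) (fun _ => CVal A.V B.V)
      (fun a b => Classical.propDecidable (a = b)) m q0 v q = if q = q0 then v else m q := by
  classical
  by_cases h : q = q0
  · subst h; simp [Function.update]
  · simp [Function.update, h]

theorem conf_gstep' {inp : Fin n → Bool} {g : GC A B} (hg : Inv inp g) (i : Fin n) (coin : Bool) :
    conf (gstep g i coin) = (proto A B).step (conf g) i coin := by
  classical
  cases hs : g.st i with
  | wA r x =>
    have hact : (proto A B).act i ((conf g).st i) =
        .write (r, .regA, i) rfl ⟨some x, none, A.v0, B.v0⟩ (.rA r x 0 false) := by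
      simp [proto, conf, hs, cact]
    rw [Protocol.step_write _ _ _ _ hact]
    apply conf_eq
    · simp [gstep, hs, conf]
      rfl
    · funext q
      obtain ⟨r', k, j⟩ := q
      refine Eq.trans ?_ (upd_mem (conf g).mem (r, .regA, i) ⟨some x, none, A.v0, B.v0⟩ (r', k, j)).symm
      cases k <;> simp [gstep, hs, conf, upd2]
      by_cases hh : r' = r ∧ j = i <;> simp [hh]
  | rA r x k c =>
    by_cases hk : k < n
    · have hact : (proto A B).act i ((conf g).st i) =
          .read (r, .regA, ⟨k, hk⟩)
            (fun v => .rA r x (k + 1) (c || decide (v.a = some (!x)))) := by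
        simp [proto, conf, hs, cact, hk]
      rw [Protocol.step_read _ _ _ _ hact]
      apply conf_eq
      · simp [gstep, hs, conf, hk]
        rfl
      · simp [gstep, hs, conf, hk]
    · have hact : (proto A B).act i ((conf g).st i) =
          .write (r, .regB, i) rfl ⟨none, some (if c then none else some x), A.v0, B.v0⟩
            (.rB r x 0 false none) := by
        simp [proto, conf, hs, cact, hk]
      rw [Protocol.step_write _ _ _ _ hact]
      apply conf_eq
      · simp [gstep, hs, conf, hk]
        rfl
      · funext q
        obtain ⟨r', k', j⟩ := q
        refine Eq.trans ?_ (upd_mem (conf g).mem (r, .regB, i)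
          ⟨none, some (if c then none else some x), A.v0, B.v0⟩ (r', k', j)).symm
        cases k' <;> simp [gstep, hs, conf, upd2, hk]
        by_cases hh : r' = r ∧ j = i <;> simp [hh]
  | rB r x k bot v =>
    have hk := hg.k_rB i r x k bot v hs
    have hact : (proto A B).act i ((conf g).st i) =
          .read (r, .regB, ⟨k, hk⟩)
            (fun w => finB A B i r x (k + 1) (bot || decide (w.b = some none)) (updV w.b v)) := by
      simp [proto, conf, hs, cact, hk]
    rw [Protocol.step_read _ _ _ _ hact]
    apply conf_eq
    · simp [gstep, hs, conf, hk]
      rfl
    · simp [gstep, hs, conf, hk]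
  | s1 r s =>
    obtain ⟨hse, hno, -⟩ := hg.st1 i r s hs
    cases ha : A.act i s with
    | read j next =>
      have hact : (proto A B).act i ((conf g).st i) =
          .read (r, .coin1, j) (fun v => norm1 A B i r (next v.m1)) := by
        simp [proto, conf, hs, cact, ha]
      rw [Protocol.step_read _ _ _ _ hact]
      rw [hse] at ha
      have hst := Sub.step_read A (A.cfg (g.H1 r)) i coin ha
      apply conf_eq
      · simp [gstep, hs, conf, Sub.cfg_snoc, hst]
        rfl
      · funext q
        obtain ⟨r', k', j'⟩ := q
        cases k' <;> simp [gstep, hs, conf]
        by_cases hr : r' = r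
        · subst hr
          simp [Sub.cfg_snoc, hst]
        · simp [Function.update_of_ne hr]
    | write v next =>
      have hact : (proto A B).act i ((conf g).st i) =
          .write (r, .coin1, i) rfl ⟨none, none, v, B.v0⟩ (norm1 A B i r next) := by
        simp [proto, conf, hs, cact, ha]
      rw [Protocol.step_write _ _ _ _ hact]
      rw [hse] at ha
      have hst := Sub.step_write A (A.cfg (g.H1 r)) i coin ha
      apply conf_eq
      · simp [gstep, hs, conf, Sub.cfg_snoc, hst]
        rfl
      · funext q
        obtain ⟨r', k', j'⟩ := q
        refine Eq.trans ?_ (upd_mem (conf g).mem (r, .coin1, i) ⟨none, none, v, B.v0⟩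
          (r', k', j')).symm
        cases k' <;> simp [gstep, hs, conf]
        by_cases hr : r' = r
        · subst hr
          simp only [Sub.cfg_snoc, hst, Function.update_self, true_and]
          by_cases hj : j' = i
          · subst hj; simp
          · simp [hj]
        · simp [Function.update_of_ne hr, hr]
    | flip next =>
      have hact : (proto A B).act i ((conf g).st i) =
          .flip (fun b => norm1 A B i r (next b)) := by
        simp [proto, conf, hs, cact, ha]
      rw [Protocol.step_flip _ _ _ _ hact]
      rw [hse] at ha
      have hst := Sub.step_flip A (A.cfg (g.H1 r)) i coin ha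
      apply conf_eq
      · simp [gstep, hs, conf, Sub.cfg_snoc, hst]
        rfl
      · funext q
        obtain ⟨r', k', j'⟩ := q
        cases k' <;> simp [gstep, hs, conf]
        by_cases hr : r' = r
        · subst hr
          simp [Sub.cfg_snoc, hst]
        · simp [Function.update_of_ne hr]
    | out o => exact absurd ha (hno o)
  | s2 r s =>
    obtain ⟨hse, hno, -, -⟩ := hg.st2 i r s hs
    cases ha : B.act i s with
    | read j next =>
      have hact : (proto A B).act i ((conf g).st i) =
          .read (r, .coin2, j) (fun v => norm2 A B i r (next v.m2)) := by
        simp [proto, conf, hs, cact, ha]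
      rw [Protocol.step_read _ _ _ _ hact]
      rw [hse] at ha
      have hst := Sub.step_read B (B.cfg (g.H2 r)) i coin ha
      apply conf_eq
      · simp [gstep, hs, conf, Sub.cfg_snoc, hst]
        rfl
      · funext q
        obtain ⟨r', k', j'⟩ := q
        cases k' <;> simp [gstep, hs, conf]
        by_cases hr : r' = r
        · subst hr
          simp [Sub.cfg_snoc, hst]
        · simp [Function.update_of_ne hr]
    | write v next =>
      have hact : (proto A B).act i ((conf g).st i) =
          .write (r, .coin2, i) rfl ⟨none, none, A.v0, v⟩ (norm2 A B i r next) := by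
        simp [proto, conf, hs, cact, ha]
      rw [Protocol.step_write _ _ _ _ hact]
      rw [hse] at ha
      have hst := Sub.step_write B (B.cfg (g.H2 r)) i coin ha
      apply conf_eq
      · simp [gstep, hs, conf, Sub.cfg_snoc, hst]
        rfl
      · funext q
        obtain ⟨r', k', j'⟩ := q
        refine Eq.trans ?_ (upd_mem (conf g).mem (r, .coin2, i) ⟨none, none, A.v0, v⟩
          (r', k', j')).symm
        cases k' <;> simp [gstep, hs, conf]
        by_cases hr : r' = r
        · subst hr
          simp only [Sub.cfg_snoc, hst, Function.update_self, true_and]
          by_cases hj : j' = i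
          · subst hj; simp
          · simp [hj]
        · simp [Function.update_of_ne hr, hr]
    | flip next =>
      have hact : (proto A B).act i ((conf g).st i) =
          .flip (fun b => norm2 A B i r (next b)) := by
        simp [proto, conf, hs, cact, ha]
      rw [Protocol.step_flip _ _ _ _ hact]
      rw [hse] at ha
      have hst := Sub.step_flip B (B.cfg (g.H2 r)) i coin ha
      apply conf_eq
      · simp [gstep, hs, conf, Sub.cfg_snoc, hst]
        rfl
      · funext q
        obtain ⟨r', k', j'⟩ := q
        cases k' <;> simp [gstep, hs, conf]
        by_cases hr : r' = r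
        · subst hr
          simp [Sub.cfg_snoc, hst]
        · simp [Function.update_of_ne hr]
    | out o => exact absurd ha (hno o)
  | dec r x =>
    have hact : (proto A B).act i ((conf g).st i) = .decide x := by
      simp [proto, conf, hs, cact]
    rw [Protocol.step_decide _ _ _ _ hact]
    simp [gstep, hs]

end Cons

end RC
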