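import Pool.Agent.H45.RC.Conf

/-!
# Part C: flips, decisions and work in the ghost configuration
-/

namespace RC.Cons

open Function

variable {n : ℕ} {A : Sub n (Option Bool)} {B : Sub n Bool}

theorem isFlip_iff' {inp : Fin n → Bool} {g : GC A B} (hg : Inv inp g) (i : Fin n) :
    (proto A B).IsFlip (conf g) i ↔
      (∃ r s, g.st i = .s1 r s ∧ A.IsFlip (A.cfg (g.H1 r)) i) ∨
      (∃ r s, g.st i = .s2 r s ∧ B.IsFlip (B.cfg (g.H2 r)) i) := by
  have hact : (proto A B).act i ((conf g).st i) = cact A B i (g.st i) := rfl
  unfold Protocol.IsFlip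
  rw [hact]
  cases hs : g.st i with
  | wA r x => simp [cact]
  | rA r x k c => by_cases hk : k < n <;> simp [cact, hk]
  | rB r x k bot v => by_cases hk : k < n <;> simp [cact, hk]
  | s1 r s =>
    obtain ⟨hse, hno, -⟩ := hg.st1 i r s hs
    have e : A.IsFlip (A.cfg (g.H1 r)) i ↔ ∃ next, A.act i s = .flip next := by
      unfold Sub.IsFlip
      rw [← hse]
    cases ha : A.act i s with
    | read j next => simp [cact, ha, e]
    | write v next => simp [cact, ha, e]
    | flip next =>
      simp [cact, ha, e]
      exact ⟨_, rfl⟩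
    | out o => exact absurd ha (hno o)
  | s2 r s =>
    obtain ⟨hse, hno, -, -⟩ := hg.st2 i r s hs
    have e : B.IsFlip (B.cfg (g.H2 r)) i ↔ ∃ next, B.act i s = .flip next := by
      unfold Sub.IsFlip
      rw [← hse]
    cases ha : B.act i s with
    | read j next => simp [cact, ha, e]
    | write v next => simp [cact, ha, e]
    | flip next =>
      simp [cact, ha, e]
      exact ⟨_, rfl⟩
    | out o => exact absurd ha (hno o)
  | dec r x => simp [cact]

theorem decides_iff' {inp : Fin n → Bool} {g : GC A B} (hg : Inv inp g) (i : Fin n) (b : Bool) :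
    (proto A B).Decides (conf g) i b ↔ ∃ r, g.st i = .dec r b := by
  have hact : (proto A B).act i ((conf g).st i) = cact A B i (g.st i) := rfl
  unfold Protocol.Decides
  rw [hact]
  cases hs : g.st i with
  | wA r x => simp [cact]
  | rA r x k c => by_cases hk : k < n <;> simp [cact, hk]
  | rB r x k bot v =>
    have hk := hg.k_rB i r x k bot v hs
    simp [cact, hk]
  | s1 r s =>
    obtain ⟨hse, hno, -⟩ := hg.st1 i r s hs
    cases ha : A.act i s with
    | read j next => simp [cact, ha]
    | write v next => simp [cact, ha]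
    | flip next => simp [cact, ha]
    | out o => exact absurd ha (hno o)
  | s2 r s =>
    obtain ⟨hse, hno, -, -⟩ := hg.st2 i r s hs
    cases ha : B.act i s with
    | read j next => simp [cact, ha]
    | write v next => simp [cact, ha]
    | flip next => simp [cact, ha]
    | out o => exact absurd ha (hno o)
  | dec r x =>
    simp only [cact, CSt.dec.injEq]
    constructor
    · intro h
      cases h
      exact ⟨r, rfl, rfl⟩
    · rintro ⟨_, -, rfl⟩
      rfl

open Classical in
theorem work_gstep' {inp : Fin n → Bool} {g : GC A B} (hg : Inv inp g) (i : Fin n) (coin : Bool)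
    (j : Fin n) :
    (gstep g i coin).work j =
      g.work j + if i = j ∧ ∀ b, ¬ (proto A B).Decides (conf g) j b then 1 else 0 := by
  by_cases hij : i = j
  · subst hij
    simp only [decides_iff' hg]
    cases hs : g.st i with
    | wA r x => simp [gstep, hs, addW]
    | rA r x k c => by_cases hk : k < n <;> simp [gstep, hs, addW, hk]
    | rB r x k bot v =>
      have hk := hg.k_rB i r x k bot v hs
      simp [gstep, hs, addW, hk]
    | s1 r s => simp [gstep, hs, addW]
    | s2 r s => simp [gstep, hs, addW]
    | dec r x => simp [gstep, hs]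
  · have hji : j ≠ i := fun h => hij h.symm
    have : (gstep g i coin).work j = g.work j := by
      unfold gstep
      split <;> (try split) <;> simp [hji, addW]
    simp [this, hij]

theorem conf_ginit (inp : Fin n → Bool) :
    conf (ginit A B inp) = (proto A B).initCfg inp := by
  apply conf_eq
  · rfl
  · funext q
    obtain ⟨r, k, j⟩ := q
    cases k <;> rfl

theorem conf_ghost' (hinv : ∀ (inp : Fin n → Bool) (h : List (Event n)), Inv inp (ghost A B inp h))
    (inp : Fin n → Bool) (h : List (Event n)) :
    conf (ghost A B inp h) = (proto A B).cfgOf inp h := by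
  induction h using List.reverseRecOn with
  | nil => exact conf_ginit inp
  | append_singleton h e ih =>
    rw [ghost_snoc, Protocol.cfgOf_snoc, conf_gstep' (hinv inp h), ih]

theorem work_ghost' (hinv : ∀ (inp : Fin n → Bool) (h : List (Event n)), Inv inp (ghost A B inp h))
    (inp : Fin n → Bool) (h : List (Event n)) (i : Fin n) :
    (proto A B).work inp h i = (ghost A B inp h).work i := by
  classical
  have key : (h.foldl (fun (cm : Config (proto A B) × ℕ) e =>
      ((proto A B).step cm.1 e.1 (e.2.getD false),
        cm.2 + if e.1 = i ∧ ∀ b, ¬ (proto A B).Decides cm.1 i b then 1 else 0))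
      ((proto A B).initCfg inp, 0)) = ((proto A B).cfgOf inp h, (ghost A B inp h).work i) := by
    induction h using List.reverseRecOn with
    | nil => rfl
    | append_singleton h e ih =>
      rw [List.foldl_append, ih, ghost_snoc, Protocol.cfgOf_snoc,
        work_gstep' (hinv inp h) e.1 (e.2.getD false) i, conf_ghost' hinv]
      rfl
  unfold Protocol.work
  have := congrArg Prod.snd key
  simp only at this
  rw [← this]

/-- `R` and the rounds -/
theorem Inv.rnd_le' {inp : Fin n → Bool} {g : GC A B} (hg : Inv inp g) (i : Fin n) :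
    rnd (g.st i) ≤ g.R + 1 := by
  by_contra hlt
  push Not at hlt
  -- round `rnd - 1` has a `⊥` entry in B, so both values were written in A in that round
  obtain ⟨r, hr⟩ : ∃ r, rnd (g.st i) = r + 2 := ⟨rnd (g.st i) - 2, by omega⟩
  have hRr : g.R ≤ r := by omega
  obtain ⟨j, hj⟩ := hg.round_bot i (r + 1) (by omega)
  obtain ⟨⟨j1, h1⟩, ⟨j2, h2⟩⟩ := hg.b_bot (r + 1) j hj
  have l1 := hg.lv_bot r j1 true (Or.inr (Or.inr h1))
  have l2 := hg.lv_bot r j2 false (Or.inr (Or.inr h2))
  rcases l1 with ⟨z1, hz1⟩ | ⟨h, -⟩
  · rcases l2 with ⟨z2, hz2⟩ | ⟨h, -⟩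
    · rw [hz1] at hz2
      simp at hz2
    · omega
  · omega

theorem Inv.vs_of_lt' {inp : Fin n → Bool} {g : GC A B} (hg : Inv inp g) {r : ℕ} (hr : r < g.R) :
    ∃ z v, g.vs r = some (z, v) := by
  obtain ⟨i, hi⟩ := hg.started r hr
  obtain ⟨⟨j, hj⟩, -⟩ := hg.b_bot r i hi
  cases hv : g.vs r with
  | none =>
    have := hg.vs_none r j hv
    rw [hj] at this
    simp at this
  | some p => exact ⟨p.1, p.2, rfl⟩

theorem vs_gstep' (g : GC A B) (i : Fin n) (coin : Bool) {r : ℕ} {z : Fin n × Bool}
    (h : g.vs r = some z) : (gstep g i coin).vs r = some z := by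
  unfold gstep
  split
  · rename_i r' x _
    by_cases hr : r = r'
    · subst hr
      simp [h]
    · simp [Function.update_of_ne hr, h]
  · split <;> exact h
  · split <;> exact h
  · exact h
  · exact h
  · exact h

end RC.Cons
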