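import Pool.Agent.H45.RC.Conf2

/-!
# Part C: the effect of a step on the coins, agreement and validity (from the invariants)
-/

namespace RC.Cons

open Function

variable {n : ℕ} {A : Sub n (Option Bool)} {B : Sub n Bool}

/-- both values in A of round `r + 1`: the coin of round `r` was started, and for every value `v*`
it has a wrong output -/
theorem Inv.both {inp : Fin n → Bool} {g : GC A B} (hg : Inv inp g) {r : ℕ} {j1 j2 : Fin n}
    (h1 : g.a (r + 1) j1 = some true) (h2 : g.a (r + 1) j2 = some false) :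
    r < g.R ∧ ∀ z v, g.vs r = some (z, v) → ∃ q, COut g r q (!v) := by
  have l1 := hg.lv_bot r j1 true (Or.inr (Or.inr h1))
  have l2 := hg.lv_bot r j2 false (Or.inr (Or.inr h2))
  constructor
  · rcases l1 with ⟨z1, hz1⟩ | ⟨h, -⟩
    · rcases l2 with ⟨z2, hz2⟩ | ⟨h, -⟩
      · rw [hz1] at hz2
        simp at hz2
      · exact h
    · exact h
  · intro z v hv
    cases v with
    | true =>
      rcases l2 with ⟨z2, hz2⟩ | ⟨-, h⟩
      · rw [hv] at hz2
        simp at hz2
      · exact ⟨j2, h⟩
    | false =>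
      rcases l1 with ⟨z2, hz2⟩ | ⟨-, h⟩
      · rw [hv] at hz2
        simp at hz2
      · exact ⟨j1, h⟩

theorem gstep_cases' {inp : Fin n → Bool} {g : GC A B} (hg : Inv inp g) (i : Fin n) (coin : Bool) :
    ((gstep g i coin).H1 = g.H1 ∧ (gstep g i coin).H2 = g.H2 ∧ (gstep g i coin).R = g.R ∧
      (∀ r s, g.st i ≠ .s1 r s) ∧ (∀ r s, g.st i ≠ .s2 r s)) ∨
    (∃ r s, g.st i = .s1 r s ∧ r < g.R ∧
      (gstep g i coin).H1 = update g.H1 r (g.H1 r ++ [(i, coin)]) ∧
      (gstep g i coin).H2 = g.H2 ∧ (gstep g i coin).R = g.R) ∨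
    (∃ r s, g.st i = .s2 r s ∧ r < g.R ∧ A.Outs (g.H1 r) i none ∧
      (gstep g i coin).H2 = update g.H2 r (g.H2 r ++ [(i, coin)]) ∧
      (gstep g i coin).H1 = g.H1 ∧ (gstep g i coin).R = g.R) ∨
    ((gstep g i coin).H1 = g.H1 ∧ (gstep g i coin).H2 = g.H2 ∧ (gstep g i coin).R = g.R + 1 ∧
      g.H1 g.R = [] ∧ g.H2 g.R = [] ∧ (∀ r s, g.st i ≠ .s1 r s) ∧ (∀ r s, g.st i ≠ .s2 r s) ∧
      (∀ r, g.R = r + 1 → ∃ z v q, g.vs r = some (z, v) ∧ COut g r q (!v))) := by
  cases hs : g.st i with
  | wA r x => left; simp [gstep, hs]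
  | rA r x k c => left; by_cases hk : k < n <;> simp [gstep, hs, hk]
  | rB r x k bot v =>
    have hk := hg.k_rB i r x k bot v hs
    by_cases hc : k + 1 = n ∧ (bot || decide (g.b r ⟨k, hk⟩ = some none)) = true ∧
              updV (g.b r ⟨k, hk⟩) v = none
    · by_cases hR : r + 1 ≤ g.R
      · left
        refine ⟨?_, ?_, ?_, ?_, ?_⟩
        · simp [gstep, hs, hk]
        · simp [gstep, hs, hk]
        · simp only [gstep, hs, hk, dite_true]
          rw [if_pos hc]
          exact max_eq_left hR
        · simp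
        · simp
      · right; right; right
        push Not at hR
        -- there is a `⊥` in B of round `r`
        obtain ⟨j, hj⟩ : ∃ j, g.b r j = some none := by
          have h2 := hc.2.1
          simp only [Bool.or_eq_true, decide_eq_true_eq] at h2
          rcases h2 with h2 | h2
          · subst h2
            exact hg.rB_bot i r x k v hs
          · exact ⟨_, h2⟩
        obtain ⟨⟨j1, h1⟩, ⟨j2, h2⟩⟩ := hg.b_bot r j hj
        have hr : r = g.R := by
          cases r with
          | zero => omega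
          | succ r =>
            have := (hg.both h1 h2).1
            omega
        refine ⟨?_, ?_, ?_, ?_, ?_, ?_, ?_, ?_⟩
        · simp [gstep, hs, hk]
        · simp [gstep, hs, hk]
        · simp only [gstep, hs, hk, dite_true]
          rw [if_pos hc]
          rw [← hr]
          exact max_eq_right (Nat.le_succ r)
        · exact (hg.H_R g.R le_rfl).1
        · exact (hg.H_R g.R le_rfl).2
        · simp
        · simp
        · intro r' hr'
          have e : r = r' + 1 := by omega
          subst e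
          obtain ⟨hlt, hout⟩ := hg.both h1 h2
          obtain ⟨z, v', hv'⟩ := hg.vs_of_lt' hlt
          obtain ⟨q, hq⟩ := hout z v' hv'
          exact ⟨z, v', q, hv', hq⟩
    · left
      refine ⟨?_, ?_, ?_, ?_, ?_⟩
      · simp [gstep, hs, hk]
      · simp [gstep, hs, hk]
      · simp only [gstep, hs, hk, dite_true]
        rw [if_neg hc]
      · simp
      · simp
  | s1 r s =>
    obtain ⟨hse, hno, hR⟩ := hg.st1 i r s hs
    right; left
    exact ⟨r, s, rfl, hR, by simp [gstep, hs], by simp [gstep, hs], by simp [gstep, hs]⟩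
  | s2 r s =>
    obtain ⟨hse, hno, ho, hR⟩ := hg.st2 i r s hs
    right; right; left
    exact ⟨r, s, rfl, hR, ho, by simp [gstep, hs], by simp [gstep, hs], by simp [gstep, hs]⟩
  | dec r x => left; simp [gstep, hs]

/-- who has left round `r` has left it with one value -/
theorem Inv.LW_unique {inp : Fin n → Bool} {g : GC A B} (hg : Inv inp g) {r : ℕ} {q : Fin n}
    {w y : Bool} (h1 : LW g r q w) (h2 : LW g r q y) : w = y := by
  rcases h1 with h1 | h1 | h1 <;> rcases h2 with h2 | h2 | h2
  · rw [h1] at h2; cases h2; rfl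
  · rw [h1] at h2; cases h2
  · rw [hg.a_wA q (r + 1) w h1] at h2; cases h2
  · rw [h1] at h2; cases h2
  · rw [h1] at h2; cases h2; rfl
  · rw [hg.a_lt q (r + 1) (by rw [h1]; simp [rnd])] at h2; cases h2
  · rw [hg.a_wA q (r + 1) y h2] at h1; cases h1
  · rw [hg.a_lt q (r + 1) (by rw [h2]; simp [rnd])] at h1; cases h1
  · rw [h1] at h2; cases h2; rfl

/-- fact (2): if `p` decides `b` in round `r`, everybody leaves round `r` with `b` -/
theorem Inv.leave {inp : Fin n → Bool} {g : GC A B} (hg : Inv inp g) {r : ℕ} {p q : Fin n}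
    {b w : Bool} (hp : g.st p = .dec r b) (hq : LW g r q w) : w = b := by
  obtain ⟨z, hz⟩ := hg.b_val r p b (hg.b_dec p r b hp)
  have hrnd : g.b r q ≠ none ∧ ∀ x k bot v, g.st q ≠ .rB r x k bot v := by
    rcases hq with h | h | h
    · refine ⟨hg.b_gt q r (by rw [h]; simp [rnd]), fun x k bot v => by rw [h]; simp⟩
    · refine ⟨by rw [hg.b_dec q r w h]; simp, fun x k bot v => by rw [h]; simp⟩
    · have : r + 1 ≤ rnd (g.st q) := by
        by_contra hlt
        rw [hg.a_lt q (r + 1) (by omega)] at h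
        cases h
      refine ⟨hg.b_gt q r (by omega), fun x k bot v hc => ?_⟩
      rw [hc] at this
      simp [rnd] at this
  cases hb : g.b r q with
  | none => exact absurd hb hrnd.1
  | some o =>
    cases o with
    | none =>
      rcases hg.pair p q r (Or.inr ⟨b, hp⟩) hb with ⟨x, k, bot, v, hst, -⟩ | ⟨y, z', hv, hl⟩
      · exact absurd hst (hrnd.2 x k bot v)
      · rw [hz] at hv
        cases hv
        exact hg.LW_unique hq hl
    | some y =>
      have e1 := hg.lv_val r q w y hq hb
      obtain ⟨z', hz'⟩ := hg.b_val r q y hb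
      rw [hz] at hz'
      cases hz'
      exact e1

theorem Inv.agree {inp : Fin n → Bool} {g : GC A B} (hg : Inv inp g) {i j : Fin n} {r r' : ℕ}
    {b b' : Bool} (hi : g.st i = .dec r b) (hj : g.st j = .dec r' b') (hrr : r ≤ r') : b = b' := by
  rcases Nat.eq_or_lt_of_le hrr with h | h
  · subst h
    exact hg.leave hj (Or.inr (Or.inl hi))
  · -- nobody writes `⊥` in round `r + 1`
    have hno : ∀ q, g.b (r + 1) q ≠ some none := by
      intro q hq
      obtain ⟨⟨j1, h1⟩, ⟨j2, h2⟩⟩ := hg.b_bot (r + 1) q hq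
      have e1 := hg.leave hi (Or.inr (Or.inr h1))
      have e2 := hg.leave hi (Or.inr (Or.inr h2))
      rw [← e1] at e2
      cases e2
    have hr' : r' = r + 1 := by
      by_contra hne
      obtain ⟨q, hq⟩ := hg.round_bot j (r + 1) (by rw [hj]; simp only [rnd]; omega)
      exact hno q hq
    subst hr'
    obtain ⟨z, hz⟩ := hg.b_val (r + 1) j b' (hg.b_dec j (r + 1) b' hj)
    have := hg.leave hi (Or.inr (Or.inr (hg.vs_some (r + 1) z b' hz)))
    exact this.symm

theorem Inv.valid {inp : Fin n → Bool} {g : GC A B} (hg : Inv inp g) (r : ℕ) (q : Fin n)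
    (b : Bool) (h : g.a r q = some b) : ∃ j, inp j = b := by
  induction r generalizing q b with
  | zero => exact ⟨q, (hg.inp_a q b h).symm⟩
  | succ r ih =>
    rcases hg.lv_bot r q b (Or.inr (Or.inr h)) with ⟨z, hz⟩ | ⟨hR, -⟩
    · exact ih z b (hg.vs_some r z b hz)
    · obtain ⟨i, hi⟩ := hg.started r hR
      obtain ⟨⟨j1, h1⟩, ⟨j2, h2⟩⟩ := hg.b_bot r i hi
      cases b with
      | true => exact ih j1 true h1
      | false => exact ih j2 false h2

theorem agreement' (hinv : ∀ (inp : Fin n → Bool) (h : List (Event n)), Inv inp (ghost A B inp h))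
    (inp : Fin n → Bool) (h : List (Event n)) (i j : Fin n) (b b' : Bool)
    (hi : (proto A B).Decides ((proto A B).cfgOf inp h) i b)
    (hj : (proto A B).Decides ((proto A B).cfgOf inp h) j b') : b = b' := by
  rw [← conf_ghost' hinv, decides_iff' (hinv inp h)] at hi hj
  obtain ⟨r, hi⟩ := hi
  obtain ⟨r', hj⟩ := hj
  rcases le_total r r' with h' | h'
  · exact (hinv inp h).agree hi hj h'
  · exact ((hinv inp h).agree hj hi h').symm

theorem validity' (hinv : ∀ (inp : Fin n → Bool) (h : List (Event n)), Inv inp (ghost A B inp h))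
    (inp : Fin n → Bool) (h : List (Event n)) (i : Fin n) (b : Bool)
    (hi : (proto A B).Decides ((proto A B).cfgOf inp h) i b) : ∃ j, inp j = b := by
  rw [← conf_ghost' hinv, decides_iff' (hinv inp h)] at hi
  obtain ⟨r, hi⟩ := hi
  have hg := hinv inp h
  obtain ⟨z, hz⟩ := hg.b_val r i b (hg.b_dec i r b hi)
  exact hg.valid r z b (hg.vs_some r z b hz)

end RC.Cons
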