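import Pool.Agent.H45.RC.Pot
import Pool.Agent.H27.RC.Inv2

/-!
# Part C
-/

namespace RC.Cons

open scoped ENNReal

variable {n T1 T2 K : ℕ} {δ1 δ2 : ℝ}

/-- Part C. -/
theorem exists_potential (hδ1 : 0 < δ1) (hδ2 : 0 < δ2)
    (A : Stage1 n T1 K δ1) (B : Stage2 n T2 K δ2) :
    ∃ P : Protocol n,
      (∀ inp h i j b b', P.Decides (P.cfgOf inp h) i b → P.Decides (P.cfgOf inp h) j b' → b = b') ∧
      (∀ inp h i b, P.Decides (P.cfgOf inp h) i b → ∃ j, inp j = b) ∧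
      ∃ G : (Fin n → Bool) → List (Event n) → ℝ≥0∞,
        (∀ inp h i, P.IsFlip (P.cfgOf inp h) i →
          (G inp (h ++ [(i, some false)]) + G inp (h ++ [(i, some true)])) / 2 ≤ G inp h) ∧
        (∀ inp h i, ¬ P.IsFlip (P.cfgOf inp h) i → G inp (h ++ [(i, none)]) ≤ G inp h) ∧
        (∀ inp h i, (P.work inp h i : ℝ≥0∞) ≤ G inp h) ∧
        (∀ inp, G inp [] ≤ ENNReal.ofReal ((1 / (δ1 * δ2) + 3) * (2 * n + 2 + T1 + T2))) :=
  exists_potential_of (fun _ _ _ _ hg i coin => inv_gstep hg i coin)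
    (fun _ _ inp h => inv_ghost inp h) hδ1 hδ2 A B

end RC.Cons
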