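import Pool.Agent.H45.RC.Conf3

/-!
# Part C: the work bound

A process makes at most `2 n + 2 + T1 + T2` steps per round.
-/

namespace RC.Cons

open Function

variable {n : ℕ}

/-- a rank function of a sub-protocol -/
structure Rk {O : Type} (P : Sub n O) (T : ℕ) (ok : Fin n → P.S → Prop)
    (rank : Fin n → P.S → ℕ) : Prop where
  ok0 : ∀ i, ok i P.s0
  le : ∀ i, rank i P.s0 ≤ T
  rd : ∀ i s j next v, ok i s → P.act i s = .read j next →
    ok i (next v) ∧ rank i (next v) < rank i s
  wr : ∀ i s v next, ok i s → P.act i s = .write v next → ok i next ∧ rank i next < rank i s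
  fl : ∀ i s next b, ok i s → P.act i s = .flip next →
    ok i (next b) ∧ rank i (next b) < rank i s

section

variable {O : Type} {P : Sub n O} {T : ℕ} {ok : Fin n → P.S → Prop} {rank : Fin n → P.S → ℕ}

theorem Rk.step (hR : Rk P T ok rank) (c : SCfg P) (i : Fin n) (b : Bool) (hok : ok i (c.st i))
    (hno : ∀ o, P.act i (c.st i) ≠ .out o) :
    ok i ((P.step c i b).st i) ∧ rank i ((P.step c i b).st i) < rank i (c.st i) := by
  unfold Sub.step
  split
  · rename_i j next h
    simpa using hR.rd i _ j next (c.mem j) hok h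
  · rename_i v next h
    simpa using hR.wr i _ v next hok h
  · rename_i next h
    simpa using hR.fl i _ next b hok h
  · rename_i o h
    exact absurd h (hno o)

theorem Rk.step_ok (hR : Rk P T ok rank) (c : SCfg P) (hok : ∀ i, ok i (c.st i)) (i : Fin n)
    (b : Bool) (j : Fin n) : ok j ((P.step c i b).st j) := by
  by_cases hj : j = i
  · subst hj
    unfold Sub.step
    split
    · rename_i k next h
      simpa using (hR.rd j _ k next (c.mem k) (hok j) h).1
    · rename_i v next h
      simpa using (hR.wr j _ v next (hok j) h).1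
    · rename_i next h
      simpa using (hR.fl j _ next b (hok j) h).1
    · exact hok j
  · have : (P.step c i b).st j = c.st j := by
      unfold Sub.step
      split <;> simp [Function.update_of_ne hj]
    rw [this]
    exact hok j

theorem Rk.cfg_ok (hR : Rk P T ok rank) (h : List (Fin n × Bool)) (i : Fin n) :
    ok i ((P.cfg h).st i) := by
  induction h using List.reverseRecOn generalizing i with
  | nil => exact hR.ok0 i
  | append_singleton h e ih =>
    rw [Sub.cfg_snoc]
    exact hR.step_ok _ ih _ _ _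

end

variable {A : Sub n (Option Bool)} {B : Sub n Bool}

/-- the bound on the work of a process in the local state `s` -/
def WBs (T1 T2 : ℕ) (rk1 : Fin n → A.S → ℕ) (rk2 : Fin n → B.S → ℕ) (i : Fin n)
    (s : CSt A.S B.S) (w : ℕ) : Prop :=
  match s with
  | .wA r _ => w ≤ r * (2 * n + 2 + T1 + T2)
  | .rA r _ k _ => w ≤ r * (2 * n + 2 + T1 + T2) + 1 + k
  | .rB r _ k _ _ => w ≤ r * (2 * n + 2 + T1 + T2) + n + 2 + k
  | .s1 r s => w + rk1 i s ≤ r * (2 * n + 2 + T1 + T2) + (2 * n + 2) + T1
  | .s2 r s => w + rk2 i s ≤ r * (2 * n + 2 + T1 + T2) + (2 * n + 2) + T1 + T2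
  | .dec r _ => w ≤ r * (2 * n + 2 + T1 + T2) + (2 * n + 2)

section

variable {T1 T2 : ℕ} {ok1 : Fin n → A.S → Prop} {rk1 : Fin n → A.S → ℕ}
  {ok2 : Fin n → B.S → Prop} {rk2 : Fin n → B.S → ℕ}

theorem WBs_norm2 (i : Fin n) (r : ℕ) (s : B.S) (w : ℕ)
    (h : w + rk2 i s ≤ r * (2 * n + 2 + T1 + T2) + (2 * n + 2) + T1 + T2) :
    WBs T1 T2 rk1 rk2 i (norm2 A B i r s) w := by
  unfold norm2
  split
  · simp only [WBs]
    nlinarith
  · simpa [WBs] using h

theorem WBs_norm1 (h2 : Rk B T2 ok2 rk2) (i : Fin n) (r : ℕ) (s : A.S) (w : ℕ)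
    (h : w + rk1 i s ≤ r * (2 * n + 2 + T1 + T2) + (2 * n + 2) + T1) :
    WBs T1 T2 rk1 rk2 i (norm1 A B i r s) w := by
  unfold norm1
  split
  · simp only [WBs]
    nlinarith
  · apply WBs_norm2
    have := h2.le i
    omega
  · simpa [WBs] using h

theorem WBs_finB (h1 : Rk A T1 ok1 rk1) (h2 : Rk B T2 ok2 rk2) (i : Fin n) (r : ℕ) (x : Bool)
    (k : ℕ) (bot : Bool) (v : Option Bool) (w : ℕ) (hk : k ≤ n)
    (h : w ≤ r * (2 * n + 2 + T1 + T2) + n + 2 + k) :
    WBs T1 T2 rk1 rk2 i (finB A B i r x k bot v) w := by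
  unfold finB
  split
  · simpa [WBs] using h
  · split
    · split
      · simp only [WBs]
        nlinarith
      · apply WBs_norm1 h2
        have := h1.le i
        omega
    · simp only [WBs]
      omega

theorem gstep_st_ne (g : GC A B) (i : Fin n) (coin : Bool) {j : Fin n} (hj : j ≠ i) :
    (gstep g i coin).st j = g.st j := by
  unfold gstep
  split <;> (try split) <;> simp [hj]

theorem gstep_work_ne (g : GC A B) (i : Fin n) (coin : Bool) {j : Fin n} (hj : j ≠ i) :
    (gstep g i coin).work j = g.work j := by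
  unfold gstep
  split <;> (try split) <;> simp [hj, addW]

theorem WBs_gstep (h1 : Rk A T1 ok1 rk1) (h2 : Rk B T2 ok2 rk2) {inp : Fin n → Bool}
    {g : GC A B} (hg : Inv inp g) (i : Fin n) (coin : Bool)
    (hw : ∀ j, WBs T1 T2 rk1 rk2 j (g.st j) (g.work j)) (j : Fin n) :
    WBs T1 T2 rk1 rk2 j ((gstep g i coin).st j) ((gstep g i coin).work j) := by
  by_cases hj : j = i
  · subst hj
    have hwj := hw j
    cases hs : g.st j with
    | wA r x =>
      rw [hs] at hwj
      simp only [WBs] at hwj
      simp [gstep, hs, WBs, addW]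
      omega
    | rA r x k c =>
      rw [hs] at hwj
      simp only [WBs] at hwj
      by_cases hk : k < n
      · simp [gstep, hs, hk, WBs, addW]
        omega
      · have := hg.k_rA j r x k c hs
        simp [gstep, hs, hk, WBs, addW]
        omega
    | rB r x k bot v =>
      rw [hs] at hwj
      simp only [WBs] at hwj
      by_cases hk : k < n
      · have e1 : addW g.work j j = g.work j + 1 := by simp [addW]
        simp only [gstep, hs, hk]
        simp only [dite_true, Function.update_self]
        apply WBs_finB h1 h2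
        · omega
        · omega
      · simp only [gstep, hs, hk, dite_false]
        simpa [WBs] using hwj
    | s1 r s =>
      rw [hs] at hwj
      simp only [WBs] at hwj
      obtain ⟨hse, hno, hR⟩ := hg.st1 j r s hs
      have hst := h1.step (A.cfg (g.H1 r)) j coin (h1.cfg_ok _ _) (by rw [← hse]; exact hno)
      rw [← hse] at hst
      simp only [gstep, hs, addW]
      simp only [Function.update_self, if_true]
      apply WBs_norm1 h2
      rw [Sub.cfg_snoc]
      have := hst.2
      simp only at this ⊢
      omega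
    | s2 r s =>
      rw [hs] at hwj
      simp only [WBs] at hwj
      obtain ⟨hse, hno, -, hR⟩ := hg.st2 j r s hs
      have hst := h2.step (B.cfg (g.H2 r)) j coin (h2.cfg_ok _ _) (by rw [← hse]; exact hno)
      rw [← hse] at hst
      simp only [gstep, hs, addW]
      simp only [Function.update_self, if_true]
      apply WBs_norm2
      rw [Sub.cfg_snoc]
      have := hst.2
      simp only at this ⊢
      omega
    | dec r x =>
      rw [hs] at hwj
      simp only [gstep, hs]
      exact hwj
  · rw [gstep_st_ne g i coin hj, gstep_work_ne g i coin hj]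
    exact hw j

theorem WBs_ghost (hinv : ∀ (inp : Fin n → Bool) (h : List (Event n)), Inv inp (ghost A B inp h))
    (h1 : Rk A T1 ok1 rk1) (h2 : Rk B T2 ok2 rk2) (inp : Fin n → Bool)
    (h : List (Event n)) (j : Fin n) :
    WBs T1 T2 rk1 rk2 j ((ghost A B inp h).st j) ((ghost A B inp h).work j) := by
  induction h using List.reverseRecOn generalizing j with
  | nil => simp [ginit, WBs]
  | append_singleton h e ih =>
    rw [ghost_snoc]
    exact WBs_gstep h1 h2 (hinv inp h) _ _ ih j

theorem WBs_le (i : Fin n) (s : CSt A.S B.S) (w : ℕ) (h : WBs T1 T2 rk1 rk2 i s w)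
    (hk : ∀ r x k c, s = .rA r x k c → k ≤ n)
    (hk' : ∀ r x k bot v, s = .rB r x k bot v → k ≤ n) :
    w ≤ (rnd s + 1) * (2 * n + 2 + T1 + T2) := by
  cases s with
  | wA r x => simp only [WBs] at h; simp only [rnd]; nlinarith
  | rA r x k c => have := hk r x k c rfl; simp only [WBs] at h; simp only [rnd]; nlinarith
  | rB r x k bot v => have := hk' r x k bot v rfl; simp only [WBs] at h; simp only [rnd]; nlinarith
  | s1 r s => simp only [WBs] at h; simp only [rnd]; nlinarith
  | s2 r s => simp only [WBs] at h; simp only [rnd]; nlinarith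
  | dec r x => simp only [WBs] at h; simp only [rnd]; nlinarith

/-- The work of a process is at most `(R + 2) (2 n + 2 + T1 + T2)`. -/
theorem work_le (hinv : ∀ (inp : Fin n → Bool) (h : List (Event n)), Inv inp (ghost A B inp h))
    (hA : A.Ranked T1) (hB : B.Ranked T2) (inp : Fin n → Bool)
    (h : List (Event n)) (i : Fin n) :
    (ghost A B inp h).work i ≤ ((ghost A B inp h).R + 2) * (2 * n + 2 + T1 + T2) := by
  obtain ⟨ok1, rk1, a1, a2, a3, a4, a5⟩ := hA
  obtain ⟨ok2, rk2, b1, b2, b3, b4, b5⟩ := hB
  have h1 : Rk A T1 ok1 rk1 := ⟨a1, a2, a3, a4, a5⟩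
  have h2 : Rk B T2 ok2 rk2 := ⟨b1, b2, b3, b4, b5⟩
  have hg := hinv inp h
  refine (WBs_le i _ _ (WBs_ghost hinv h1 h2 inp h i) ?_ ?_).trans ?_
  · intro r x k c hs
    exact hg.k_rA i r x k c hs
  · intro r x k bot v hs
    exact (hg.k_rB i r x k bot v hs).le
  · exact Nat.mul_le_mul_right _ (by have := hg.rnd_le' i; omega)

end

end RC.Cons
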